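import Pool.Agent.N988.ES.Stm

/-!
# Project ES (helper988), part COMP: Fourier coefficients of the composition (helper137)
-/

set_option autoImplicit false

open MeasureTheory Set Filter
open scoped Topology ENNReal
open Pool.Agent.N988.EA Pool.Agent.N988.EC Pool.Agent.N988.EP Pool.Agent.N988.ES

namespace Pool.Agent.N137.ES

noncomputable section

/-- the mean of a function of one coin -/
theorem int_coin {q : ℝ} (h0 : 0 ≤ q) (h1 : q ≤ 1) (f : Bool → ℝ) :
    ∫ x, f x ∂(coin q) = q * f true + (1 - q) * f false := by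
  unfold coin
  rw [integral_add_measure, integral_smul_measure, integral_smul_measure, integral_dirac,
    integral_dirac, ENNReal.toReal_ofReal h0, ENNReal.toReal_ofReal (by linarith), smul_eq_mul,
    smul_eq_mul]
  · exact (integrable_dirac (by simp)).smul_measure ENNReal.ofReal_ne_top
  · exact (integrable_dirac (by simp)).smul_measure ENNReal.ofReal_ne_top

theorem chi_false {p : ℝ} : chi p false = Real.sqrt ((1 - p) / p) := by
  unfold chi
  simp

theorem chi_true {p : ℝ} : chi p true = -Real.sqrt (p / (1 - p)) := by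
  unfold chi
  simp

theorem mul_sqrt1 {p : ℝ} (h0 : 0 < p) (h1 : p < 1) :
    p * Real.sqrt ((1 - p) / p) = Real.sqrt (p * (1 - p)) := by
  have h2 : 0 < 1 - p := by linarith
  have h3 : p * (1 - p) = p ^ 2 * ((1 - p) / p) := by field_simp
  rw [h3, Real.sqrt_mul (by positivity), Real.sqrt_sq h0.le]

theorem mul_sqrt2 {p : ℝ} (h0 : 0 < p) (h1 : p < 1) :
    (1 - p) * Real.sqrt (p / (1 - p)) = Real.sqrt (p * (1 - p)) := by
  have h2 : 0 < 1 - p := by linarith
  have h3 : p * (1 - p) = (1 - p) ^ 2 * (p / (1 - p)) := by field_simp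
  rw [h3, Real.sqrt_mul (by positivity), Real.sqrt_sq h2.le]

theorem mean_chi {p : ℝ} (h0 : 0 < p) (h1 : p < 1) : ∫ x, chi p x ∂(coin (1 - p)) = 0 := by
  rw [int_coin (by linarith) (by linarith), chi_false, chi_true]
  have e1 := mul_sqrt1 h0 h1
  have e2 := mul_sqrt2 h0 h1
  have e3 : (1 : ℝ) - (1 - p) = p := by ring
  rw [e3, e1, mul_neg, e2]
  ring

/-- the mean of a product of coordinates -/
theorem mean_prod {b n : ℕ} {p : ℝ} (h0 : 0 < p) (h1 : p < 1) (S : Finset (Edge b n)) :
    ∫ w, ∏ e ∈ S, chi p (w e) ∂(iid (coin (1 - p)) b n) =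
      (open Classical in if S = ∅ then 1 else 0) := by
  classical
  have : IsProbabilityMeasure (coin (1 - p)) := coin_prob (by linarith) (by linarith)
  have e1 : ∀ w : Edge b n → Bool, ∏ e ∈ S, chi p (w e) =
      ∏ e : Edge b n, (fun x : Bool => if e ∈ S then chi p x else 1) (w e) := by
    intro w
    simp only
    rw [Finset.prod_ite_mem, Finset.univ_inter]
  simp only [e1]
  unfold iid
  rw [integral_fintype_prod_eq_prod (𝕜 := ℝ) (μ := fun _ : Edge b n => coin (1 - p))
    (fun e (x : Bool) => if e ∈ S then chi p x else 1)]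
  by_cases hS : S = ∅
  · rw [if_pos hS]
    refine Finset.prod_eq_one fun e _ => ?_
    have h2 : e ∉ S := by rw [hS]; simp
    simp only [if_neg h2]
    rw [integral_const, probReal_univ, smul_eq_mul, mul_one]
  · rw [if_neg hS]
    obtain ⟨e, he⟩ := Finset.nonempty_iff_ne_empty.2 hS
    refine Finset.prod_eq_zero (Finset.mem_univ e) ?_
    simp only [if_pos he]
    exact mean_chi h0 h1

/-- the indicator of the crossing -/
def ind {b n : ℕ} (w : Edge b n → Bool) : ℝ := if across w = 0 then 1 else 0

/-- the product of the coordinates -/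
def chr {b n : ℕ} (p : ℝ) (S : Finset (Edge b n)) (w : Edge b n → Bool) : ℝ :=
  ∏ e ∈ S, chi p (w e)

theorem xc_eq {b n : ℕ} (p : ℝ) (S : Finset (Edge b n)) :
    xc p S = ∫ w, ind w * chr p S w ∂(iid (coin (1 - p)) b n) := rfl

/-- the crossing of the composition -/
theorem ind_succ {b : ℕ} (hb : 1 ≤ b) (n : ℕ) (w : Edge b (n + 1) → Bool) :
    ind w = 1 - ∏ i : Fin b, (1 - ind (sub w i false) * ind (sub w i true)) := by
  classical
  have hA := (k_LOW b hb).1
  have h1 : across w = 0 ↔ ∃ i : Fin b, across (sub w i false) = 0 ∧ across (sub w i true) = 0 := by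
    have h2 := Pool.Agent.N530.EP.lt_Y hb n 0 w
    rw [← hA (n + 1) w] at h2
    constructor
    · intro h
      by_contra hno
      push Not at hno
      have h3 : 0 < across w := h2.2 fun i => by
        have h4 := hno i
        rw [← hA n, ← hA n]
        by_cases h5 : across (sub w i false) = 0
        · have := h4 h5
          omega
        · omega
      omega
    · rintro ⟨i, h3, h4⟩
      by_contra h
      have h5 := h2.1 (Nat.pos_of_ne_zero h) i
      rw [← hA n, ← hA n] at h5
      omega
  by_cases h : across w = 0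
  · obtain ⟨i, h3, h4⟩ := h1.1 h
    have h5 : ∏ i : Fin b, (1 - ind (sub w i false) * ind (sub w i true)) = 0 := by
      refine Finset.prod_eq_zero (Finset.mem_univ i) ?_
      unfold ind
      rw [if_pos h3, if_pos h4]
      ring
    rw [h5]
    unfold ind
    rw [if_pos h]
    ring
  · have h5 : ∏ i : Fin b, (1 - ind (sub w i false) * ind (sub w i true)) = 1 := by
      refine Finset.prod_eq_one fun i _ => ?_
      have h6 : ind (sub w i false) * ind (sub w i true) = 0 := by
        unfold ind
        by_cases h7 : across (sub w i false) = 0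
        · by_cases h8 : across (sub w i true) = 0
          · exact absurd (h1.2 ⟨i, h7, h8⟩) h
          · rw [if_neg h8, mul_zero]
        · rw [if_neg h7, zero_mul]
      rw [h6, sub_zero]
    rw [h5]
    unfold ind
    rw [if_neg h]
    ring

theorem mem_fcell {b n : ℕ} (S : Finset (Edge b (n + 1))) (i : Fin b) (s : Bool) (e : Edge b n) :
    e ∈ fcell S i s ↔ ((i, s, e) : Edge b (n + 1)) ∈ S := by
  unfold fcell
  exact Finset.mem_preimage

theorem prod_succ (b n : ℕ) (g : Edge b (n + 1) → ℝ) :
    ∏ e, g e = ∏ i : Fin b, ∏ s : Bool, ∏ e : Edge b n, g ((i, s, e) : Edge b (n + 1)) := by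
  refine (Fintype.prod_prod_type (fun e : Fin b × Bool × Edge b n => g e)).trans ?_
  refine Finset.prod_congr rfl fun i _ => ?_
  exact Fintype.prod_prod_type (fun e : Bool × Edge b n => g (i, e))

open Classical in
/-- the factor `g e` for `e ∈ S`, else `1` -/
def sel {α : Type} (S : Finset α) (g : α → ℝ) (e : α) : ℝ := if e ∈ S then g e else 1

theorem sel_pos {α : Type} {S : Finset α} {g : α → ℝ} {e : α} (h : e ∈ S) : sel S g e = g e :=
  if_pos h

theorem sel_neg {α : Type} {S : Finset α} {g : α → ℝ} {e : α} (h : e ∉ S) : sel S g e = 1 :=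
  if_neg h

theorem prod_sel {α : Type} [Fintype α] (S : Finset α) (g : α → ℝ) :
    ∏ e ∈ S, g e = ∏ e, sel S g e := by
  classical
  unfold sel
  rw [Finset.prod_ite_mem, Finset.univ_inter]

/-- the product of the coordinates over the halves -/
theorem chr_succ {b n : ℕ} (p : ℝ) (S : Finset (Edge b (n + 1))) (w : Edge b (n + 1) → Bool) :
    chr p S w = ∏ i : Fin b, (chr p (fcell S i false) (sub w i false) *
      chr p (fcell S i true) (sub w i true)) := by
  unfold chr
  rw [prod_sel S (fun e => chi p (w e)), prod_succ]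
  refine Finset.prod_congr rfl fun i _ => ?_
  rw [Fintype.prod_bool, mul_comm]
  have e3 : ∀ s : Bool, ∏ e : Edge b n,
      sel S (fun e => chi p (w e)) ((i, s, e) : Edge b (n + 1)) =
      ∏ e ∈ fcell S i s, chi p (sub w i s e) := by
    intro s
    rw [prod_sel (fcell S i s) (fun e => chi p (sub w i s e))]
    refine Finset.prod_congr rfl fun e _ => ?_
    by_cases h : e ∈ fcell S i s
    · exact (sel_pos ((mem_fcell S i s e).1 h)).trans
        (sel_pos (g := fun e => chi p (sub w i s e)) h).symm
    · exact (sel_neg fun h' => h ((mem_fcell S i s e).2 h')).trans (sel_neg h).symm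
  exact congrArg₂ (· * ·) (e3 false) (e3 true)

/-- independence of the halves -/
theorem int_halves {b n : ℕ} {p : ℝ} (h0 : 0 < p) (h1 : p < 1)
    (G : Fin b → (Edge b n → Bool) × (Edge b n → Bool) → ℝ) :
    ∫ w, ∏ i, G i (sub w i false, sub w i true) ∂(iid (coin (1 - p)) b (n + 1)) =
      ∏ i, ∫ q, G i q ∂((iid (coin (1 - p)) b n).prod (iid (coin (1 - p)) b n)) := by
  have : IsProbabilityMeasure (coin (1 - p)) := coin_prob (by linarith) (by linarith)
  have hmp := Pool.Agent.N530.EP.mp_halves (coin (1 - p)) k_CUR b n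
  rw [← integral_fintype_prod_eq_prod (𝕜 := ℝ)
    (μ := fun _ : Fin b => (iid (coin (1 - p)) b n).prod (iid (coin (1 - p)) b n)) G,
    ← hmp.map_eq, integral_map hmp.measurable.aemeasurable
      (Measurable.of_discrete).aestronglyMeasurable]
  rfl

/-- the mean for one branch -/
theorem int_pair {b n : ℕ} {p : ℝ} (h0 : 0 < p) (h1 : p < 1) (A B : Finset (Edge b n)) :
    ∫ q, (1 - ind q.1 * ind q.2) * (chr p A q.1 * chr p B q.2)
      ∂((iid (coin (1 - p)) b n).prod (iid (coin (1 - p)) b n)) =
      (open Classical in if A = ∅ ∧ B = ∅ then 1 else 0) - xc p A * xc p B := by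
  classical
  have : IsProbabilityMeasure (coin (1 - p)) := coin_prob (by linarith) (by linarith)
  have e1 : ∀ q : (Edge b n → Bool) × (Edge b n → Bool),
      (1 - ind q.1 * ind q.2) * (chr p A q.1 * chr p B q.2) =
      chr p A q.1 * chr p B q.2 - (ind q.1 * chr p A q.1) * (ind q.2 * chr p B q.2) := by
    intro q
    ring
  simp only [e1]
  rw [integral_sub Integrable.of_finite Integrable.of_finite,
    integral_prod_mul (fun u => chr p A u) (fun u => chr p B u),
    integral_prod_mul (fun u => ind u * chr p A u) (fun u => ind u * chr p B u),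
    ← xc_eq, ← xc_eq]
  congr 1
  have e2 := mean_prod h0 h1 A
  have e3 := mean_prod h0 h1 B
  unfold chr
  rw [e2, e3]
  by_cases hA : A = ∅
  · by_cases hB : B = ∅
    · simp [hA, hB]
    · simp [hA, hB]
  · simp [hA]

theorem base {b : ℕ} {p : ℝ} (hb : 1 ≤ b) (h0 : 0 < p) (h1 : p < 1) (f : Bool → ℝ) :
    ∫ w : Edge b 0 → Bool, ind w * f (w ()) ∂(iid (coin (1 - p)) b 0) = p * f false := by
  have : IsProbabilityMeasure (coin (1 - p)) := coin_prob (by linarith) (by linarith)
  have hA := (k_LOW b hb).1
  have hmp : MeasurePreserving (fun w : Edge b 0 → Bool => w ()) (iid (coin (1 - p)) b 0)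
      (coin (1 - p)) := measurePreserving_eval (fun _ : Edge b 0 => coin (1 - p)) ()
  have e1 : ∀ w : Edge b 0 → Bool, ind w * f (w ()) =
      (fun x : Bool => (if x then 0 else 1) * f x) (w ()) := by
    intro w
    have h4 : Y 0 w = if w () then 1 else 0 := rfl
    unfold ind
    rw [hA 0 w, h4]
    cases w () <;> simp
  simp only [e1]
  have e2 : ∫ w : Edge b 0 → Bool, (fun x : Bool => ((if x then 0 else 1) * f x : ℝ)) (w ())
      ∂(iid (coin (1 - p)) b 0) = ∫ x : Bool, ((if x then 0 else 1) * f x : ℝ) ∂(coin (1 - p)) := by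
    have e3 := integral_map (μ := iid (coin (1 - p)) b 0)
      (φ := fun w : Edge b 0 → Bool => w ()) hmp.measurable.aemeasurable
      (f := fun x : Bool => ((if x then 0 else 1) * f x : ℝ))
      (Measurable.of_discrete).aestronglyMeasurable
    rw [hmp.map_eq] at e3
    exact e3.symm
  rw [e2, int_coin (by linarith) (by linarith)]
  simp

/-- Q1: the coefficients of the composition. -/
theorem t_COMP : S_COMP := by
  classical
  intro b n hb p h0 h1
  have : IsProbabilityMeasure (coin (1 - p)) := coin_prob (by linarith) (by linarith)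
  refine ⟨⟨?_, ?_⟩, fun S => ?_⟩
  · rw [xc_eq]
    have e1 := base (b := b) hb h0 h1 (fun _ => 1)
    rw [mul_one] at e1
    exact e1
  · rw [xc_eq]
    have e1 := base (b := b) hb h0 h1 (chi p)
    rw [chi_false, mul_sqrt1 h0 h1] at e1
    rw [← e1]
    refine integral_congr_ae (Filter.Eventually.of_forall fun w => ?_)
    have e2 : chr p (Finset.univ : Finset (Edge b 0)) w = chi p (w ()) := by
      unfold chr
      have e3 : (Finset.univ : Finset (Edge b 0)) = {()} := rfl
      rw [e3]
      exact Finset.prod_singleton _ _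
    simp only [e2]
  · rw [xc_eq]
    have e1 : ∀ w : Edge b (n + 1) → Bool, ind w * chr p S w = chr p S w -
        ∏ i : Fin b, (fun q : (Edge b n → Bool) × (Edge b n → Bool) =>
          (1 - ind q.1 * ind q.2) * (chr p (fcell S i false) q.1 * chr p (fcell S i true) q.2))
            (sub w i false, sub w i true) := by
      intro w
      simp only
      rw [Finset.prod_mul_distrib, ← chr_succ, ind_succ hb]
      ring
    simp only [e1]
    rw [integral_sub Integrable.of_finite Integrable.of_finite]
    have e2 := mean_prod h0 h1 S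
    have e3 := int_halves (b := b) (n := n) h0 h1
      (fun i (q : (Edge b n → Bool) × (Edge b n → Bool)) =>
          (1 - ind q.1 * ind q.2) * (chr p (fcell S i false) q.1 * chr p (fcell S i true) q.2))
    have e4 : ∀ i : Fin b, ∫ q, (fun i (q : (Edge b n → Bool) × (Edge b n → Bool)) =>
          (1 - ind q.1 * ind q.2) * (chr p (fcell S i false) q.1 * chr p (fcell S i true) q.2)) i q
          ∂((iid (coin (1 - p)) b n).prod (iid (coin (1 - p)) b n)) =
        (if fcell S i false = ∅ ∧ fcell S i true = ∅ then 1 else 0) -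
          xc p (fcell S i false) * xc p (fcell S i true) := fun i => by
      have e5 := int_pair h0 h1 (fcell S i false) (fcell S i true)
      convert e5
    rw [Finset.prod_congr rfl fun i _ => e4 i] at e3
    refine congrArg₂ (· - ·) ?_ e3
    unfold chr
    convert e2

end

end Pool.Agent.N137.ES
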